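import Mathlib

/-!
# Redicolouring digraphs: closed walks, hitting sets, colour classes and paths of colourings
-/

set_option autoImplicit false

namespace Pool.Agent.CYD

open Relation Finset

variable {V C : Type} [DecidableEq V] [DecidableEq C]

/-- there is no closed walk inside `T` -/
def Acyc (D : V → V → Prop) (T : Finset V) : Prop :=
  ∀ v, ¬ TransGen (fun a b => D a b ∧ a ∈ T ∧ b ∈ T) v v

/-- `S` meets all closed walks through `v` -/
def Hits (D : V → V → Prop) (v : V) (S : Finset V) : Prop :=
  v ∉ S ∧ ¬ TransGen (fun a b => D a b ∧ a ∉ S ∧ b ∉ S) v v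

theorem tg_mono {r p : V → V → Prop} {a b : V} (h : TransGen r a b)
    (hp : ∀ a b, r a b → p a b) : TransGen p a b :=
  TransGen.mono hp _ _ h

theorem Acyc.mono {D : V → V → Prop} {T T' : Finset V} (h : T ⊆ T') (hT : Acyc D T') :
    Acyc D T := by
  intro v hv
  exact hT v (tg_mono hv fun a b hab => ⟨hab.1, h hab.2.1, h hab.2.2⟩)

theorem acyc_empty {D : V → V → Prop} : Acyc D (∅ : Finset V) := by
  intro v hv
  obtain ⟨x, hx, -⟩ := TransGen.head'_iff.1 hv
  exact absurd hx.2.1 (by simp)

theorem tg_split {D : V → V → Prop} {T : Finset V} {v a b : V}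
    (h : TransGen (fun a b => D a b ∧ a ∈ insert v T ∧ b ∈ insert v T) a b) :
    TransGen (fun a b => D a b ∧ a ∈ T ∧ b ∈ T) a b ∨
      (ReflTransGen (fun a b => D a b ∧ a ∈ insert v T ∧ b ∈ insert v T) a v ∧
        ReflTransGen (fun a b => D a b ∧ a ∈ insert v T ∧ b ∈ insert v T) v b) := by
  induction h with
  | single hab =>
    rename_i c
    by_cases h1 : a = v
    · right
      subst h1
      exact ⟨ReflTransGen.refl, ReflTransGen.single hab⟩
    · by_cases h2 : c = v
      · right
        subst h2
        exact ⟨ReflTransGen.single hab, ReflTransGen.refl⟩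
      · left
        refine TransGen.single ⟨hab.1, ?_, ?_⟩
        · exact (mem_insert.1 hab.2.1).resolve_left h1
        · exact (mem_insert.1 hab.2.2).resolve_left h2
  | tail hab hbc ih =>
    rename_i b c
    rcases ih with h | ⟨h1, h2⟩
    · by_cases hb : b = v
      · right
        subst hb
        exact ⟨hab.to_reflTransGen, ReflTransGen.single hbc⟩
      · by_cases hc : c = v
        · right
          subst hc
          exact ⟨(TransGen.tail hab hbc).to_reflTransGen, ReflTransGen.refl⟩
        · left
          refine TransGen.tail h ⟨hbc.1, ?_, ?_⟩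
          · exact (mem_insert.1 hbc.2.1).resolve_left hb
          · exact (mem_insert.1 hbc.2.2).resolve_left hc
    · exact Or.inr ⟨h1, ReflTransGen.tail h2 hbc⟩

theorem acyc_insert {D : V → V → Prop} {T : Finset V} {v : V} (hT : Acyc D T)
    (h : ¬ TransGen (fun a b => D a b ∧ a ∈ insert v T ∧ b ∈ insert v T) v v) :
    Acyc D (insert v T) := by
  intro u hu
  rcases tg_split hu with h1 | ⟨h1, h2⟩
  · exact hT u h1
  · exact h ((TransGen.trans_right h2 hu).trans_left h1)

theorem acyc_insert_of_hits {D : V → V → Prop} {T S : Finset V} {v : V} (hT : Acyc D T)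
    (hS : Hits D v S) (h : ∀ x ∈ S, x ∉ T) : Acyc D (insert v T) := by
  refine acyc_insert hT fun hv => hS.2 (tg_mono hv ?_)
  have key : ∀ a ∈ insert v T, a ∉ S := by
    intro a ha haS
    rcases mem_insert.1 ha with h1 | h1
    · exact hS.1 (h1 ▸ haS)
    · exact h a haS h1
  exact fun a b hab => ⟨hab.1, key a hab.2.1, key b hab.2.2⟩

theorem blocked_hits {D : V → V → Prop} {T S : Finset V} {v : V} (hT : Acyc D T)
    (hv : ¬ Acyc D (insert v T)) (hS : Hits D v S) : ∃ x ∈ S, x ∈ T := by
  by_contra hcon
  push Not at hcon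
  exact hv (acyc_insert_of_hits hT hS hcon)

theorem blocked_out {D : V → V → Prop} (hl : ∀ v, ¬ D v v) {T : Finset V} {v : V}
    (hT : Acyc D T) (hv : ¬ Acyc D (insert v T)) : ∃ x ∈ T, D v x := by
  by_contra hcon
  push Not at hcon
  refine hv (acyc_insert hT fun h => ?_)
  obtain ⟨x, hx, -⟩ := TransGen.head'_iff.1 h
  rcases mem_insert.1 hx.2.2 with h1 | h1
  · exact hl v (h1 ▸ hx.1)
  · exact hcon x h1 hx.1

theorem blocked_in {D : V → V → Prop} (hl : ∀ v, ¬ D v v) {T : Finset V} {v : V}
    (hT : Acyc D T) (hv : ¬ Acyc D (insert v T)) : ∃ x ∈ T, D x v := by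
  by_contra hcon
  push Not at hcon
  refine hv (acyc_insert hT fun h => ?_)
  obtain ⟨x, -, hx⟩ := TransGen.tail'_iff.1 h
  rcases mem_insert.1 hx.2.1 with h1 | h1
  · exact hl v (h1 ▸ hx.1)
  · exact hcon x h1 hx.1

/-- the class of colour `c` in `W` -/
def cls (W : Finset V) (f : V → C) (c : C) : Finset V := W.filter fun x => f x = c

theorem mem_cls {W : Finset V} {f : V → C} {c : C} {x : V} :
    x ∈ cls W f c ↔ x ∈ W ∧ f x = c := by
  simp [cls]

/-- `f` is a dicolouring of `W` with colours in `K` -/
def Col (D : V → V → Prop) (W : Finset V) (K : Finset C) (f : V → C) : Prop :=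
  (∀ v ∈ W, f v ∈ K) ∧ ∀ c, Acyc D (cls W f c)

/-- there is a sequence of `n` recolourings of vertices of `W` from `f` to `g` -/
inductive Pth (D : V → V → Prop) (W : Finset V) (K : Finset C) :
    ℕ → (V → C) → (V → C) → Prop
  | refl (f : V → C) (hf : Col D W K f) : Pth D W K 0 f f
  | step {n : ℕ} {f g : V → C} (v : V) (c : C) (h : Pth D W K n f g) (hv : v ∈ W)
      (hc : Col D W K (Function.update g v c)) : Pth D W K (n + 1) f (Function.update g v c)

variable {D : V → V → Prop} {W : Finset V} {K : Finset C}

theorem Pth.left {n : ℕ} {f g : V → C} (h : Pth D W K n f g) : Col D W K f := by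
  induction h with
  | refl f hf => exact hf
  | step v c h hv hc ih => exact ih

theorem Pth.right {n : ℕ} {f g : V → C} (h : Pth D W K n f g) : Col D W K g := by
  cases h with
  | refl f hf => assumption
  | step v c h hv hc => exact hc

theorem Pth.trans {m n : ℕ} {f g h : V → C} (h1 : Pth D W K m f g) (h2 : Pth D W K n g h) :
    Pth D W K (m + n) f h := by
  induction h2 with
  | refl g hg => exact h1
  | step v c h hv hc ih => exact Pth.step v c (ih h1) hv hc

theorem Pth.single {f : V → C} {v : V} {c : C} (hf : Col D W K f) (hv : v ∈ W)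
    (hc : Col D W K (Function.update f v c)) : Pth D W K 1 f (Function.update f v c) :=
  Pth.step v c (Pth.refl f hf) hv hc

theorem Pth.symm {n : ℕ} {f g : V → C} (h : Pth D W K n f g) : Pth D W K n g f := by
  induction h with
  | refl f hf => exact Pth.refl f hf
  | step v c h hv hc ih =>
    rename_i m f g
    have h1 : Function.update (Function.update g v c) v (g v) = g := by
      simp
    have h2 : Pth D W K 1 (Function.update g v c) g := by
      have := Pth.single (v := v) (c := g v) hc hv (by rw [h1]; exact h.right)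
      rwa [h1] at this
    have h3 := h2.trans ih
    rwa [add_comm] at h3

theorem Pth.eq_off {n : ℕ} {f g : V → C} (h : Pth D W K n f g) {x : V} (hx : x ∉ W) :
    g x = f x := by
  induction h with
  | refl f hf => rfl
  | step v c h hv hc ih =>
    rw [Function.update_of_ne (fun (h : x = v) => hx (h ▸ hv))]
    exact ih

theorem cls_update_self {f : V → C} {v : V} {c : C} :
    cls W (Function.update f v c) c ⊆ insert v (cls W f c) := by
  intro x hx
  rw [mem_cls] at hx
  by_cases h : x = v
  · simp [h]
  · rw [Function.update_of_ne h] at hx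
    exact mem_insert_of_mem (mem_cls.2 hx)

theorem cls_update_ne {f : V → C} {v : V} {c d : C} (hd : d ≠ c) :
    cls W (Function.update f v c) d ⊆ cls W f d := by
  intro x hx
  rw [mem_cls] at hx ⊢
  by_cases h : x = v
  · subst h
    rw [Function.update_self] at hx
    exact absurd hx.2.symm hd
  · rwa [Function.update_of_ne h] at hx

theorem Col.update {f : V → C} (hf : Col D W K f) {v : V} {c : C} (hc : c ∈ K)
    (h : Acyc D (insert v (cls W f c))) : Col D W K (Function.update f v c) := by
  refine ⟨fun x hx => ?_, fun d => ?_⟩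
  · by_cases h : x = v
    · subst h
      rwa [Function.update_self]
    · rw [Function.update_of_ne h]
      exact hf.1 x hx
  · by_cases h2 : d = c
    · subst h2
      exact h.mono cls_update_self
    · exact (hf.2 d).mono (cls_update_ne h2)

end Pool.Agent.CYD
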