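import Pool.Agent.CYD.MainB

/-!
# The order of the vertices, and the theorem for bounded cycle-degrees
-/

set_option autoImplicit false

namespace Pool.Agent.CYD

open Relation Finset

variable {V : Type} [DecidableEq V]

theorem Hits.mono {D E : V → V → Prop} {v : V} {S : Finset V} (h : ∀ a b, E a b → D a b)
    (hS : Hits D v S) : Hits E v S :=
  ⟨hS.1, fun hv => hS.2 (tg_mono hv fun a b hab => ⟨h a b hab.1, hab.2⟩)⟩

theorem exists_order {D : V → V → Prop} {k : ℕ}
    (H1 : ∀ U : Finset V, U.Nonempty → ∃ z ∈ U, ∃ S : Finset V, S.card + 2 ≤ k ∧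
      Hits (fun a b => D a b ∧ a ∈ U ∧ b ∈ U) z S) :
    ∀ (m : ℕ) (U : Finset V), U.card = m → ∃ τ : V → ℕ,
      (∀ a ∈ U, ∀ b ∈ U, τ a = τ b → a = b) ∧ (∀ v ∈ U, τ v < m) ∧
      ∀ v ∈ U, ∃ P : Finset V, P.card + 2 ≤ k ∧
        Hits (fun a b => D a b ∧ (a ∈ U ∧ τ a ≤ τ v) ∧ (b ∈ U ∧ τ b ≤ τ v)) v P := by
  intro m
  induction m with
  | zero =>
    intro U hU
    rw [card_eq_zero] at hU
    subst hU
    exact ⟨fun _ => 0, by simp, by simp, by simp⟩
  | succ m ih =>
    intro U hU
    have hne : U.Nonempty := by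
      rw [← card_pos]
      omega
    obtain ⟨z, hz, S, hSc, hS⟩ := H1 U hne
    have hU' : (U.erase z).card = m := by
      rw [card_erase_of_mem hz, hU]
      rfl
    obtain ⟨τ', h1, h2, h3⟩ := ih (U.erase z) hU'
    have hz' : Function.update τ' z m z = m := Function.update_self _ _ _
    have hne' : ∀ v, v ≠ z → Function.update τ' z m v = τ' v :=
      fun v hv => Function.update_of_ne hv _ _
    refine ⟨Function.update τ' z m, ?_, ?_, ?_⟩
    · intro a ha b hb hab
      by_cases haz : a = z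
      · by_cases hbz : b = z
        · rw [haz, hbz]
        · rw [haz, hz', hne' b hbz] at hab
          have := h2 b (mem_erase.2 ⟨hbz, hb⟩)
          omega
      · by_cases hbz : b = z
        · rw [hbz, hz', hne' a haz] at hab
          have := h2 a (mem_erase.2 ⟨haz, ha⟩)
          omega
        · rw [hne' a haz, hne' b hbz] at hab
          exact h1 a (mem_erase.2 ⟨haz, ha⟩) b (mem_erase.2 ⟨hbz, hb⟩) hab
    · intro v hv
      by_cases hvz : v = z
      · rw [hvz, hz']
        exact Nat.lt_succ_self m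
      · rw [hne' v hvz]
        have := h2 v (mem_erase.2 ⟨hvz, hv⟩)
        omega
    · intro v hv
      by_cases hvz : v = z
      · subst hvz
        exact ⟨S, hSc, hS.mono fun a b hab => ⟨hab.1, hab.2.1.1, hab.2.2.1⟩⟩
      · obtain ⟨P, hPc, hP⟩ := h3 v (mem_erase.2 ⟨hvz, hv⟩)
        refine ⟨P, hPc, hP.mono ?_⟩
        have hvm := h2 v (mem_erase.2 ⟨hvz, hv⟩)
        have key : ∀ a, a ∈ U → Function.update τ' z m a ≤ Function.update τ' z m v →
            a ∈ U.erase z ∧ τ' a ≤ τ' v := by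
          intro a ha hav
          rw [hne' v hvz] at hav
          have haz : a ≠ z := by
            rintro rfl
            rw [Function.update_self] at hav
            omega
          rw [hne' a haz] at hav
          exact ⟨mem_erase.2 ⟨haz, ha⟩, hav⟩
        exact fun a b hab => ⟨hab.1, key a hab.2.1.1 hab.2.1.2, key b hab.2.2.1 hab.2.2.2⟩

/-- any two dicolourings are joined by at most `k (n ^ 2 + 3 n)` recolourings -/
theorem exists_pthB [Fintype V] {D : V → V → Prop} {k : ℕ}
    (H1 : ∀ U : Finset V, U.Nonempty → ∃ z ∈ U, ∃ S : Finset V, S.card + 2 ≤ k ∧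
      Hits (fun a b => D a b ∧ a ∈ U ∧ b ∈ U) z S)
    (H2 : ∀ v, ∃ S : Finset V, S.card + 1 ≤ k ∧ Hits D v S)
    (f g : V → Fin k) (hf : ∀ c, Acyc D (univ.filter fun v => f v = c))
    (hg : ∀ c, Acyc D (univ.filter fun v => g v = c)) :
    ∃ L : ℕ, L ≤ k * (Fintype.card V ^ 2 + 3 * Fintype.card V) ∧
      Pth D (univ : Finset V) (univ : Finset (Fin k)) L f g := by
  obtain ⟨τ, h1, h2, h3⟩ := exists_order H1 (Fintype.card V) univ card_univ
  choose S hSc hS using H2
  choose P hPc hP using fun v => h3 v (mem_univ v)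
  obtain ⟨L, hL, hp⟩ := main_indB hS (τ := τ) (P := P)
    (fun v => (hP v).mono fun a b hab => ⟨hab.1, ⟨mem_univ _, hab.2.1⟩, mem_univ _, hab.2.2⟩)
    (fun a b hab => h1 a (mem_univ _) b (mem_univ _) hab) (fun v => h2 v (mem_univ v))
    k univ (univ : Finset (Fin k)) (by rw [card_univ, Fintype.card_fin]) (card_univ.le)
    (by
      intro v _
      rw [inter_univ, inter_univ]
      exact ⟨hSc v, hPc v⟩)
    f g ⟨fun _ _ => mem_univ _, hf⟩ ⟨fun _ _ => mem_univ _, hg⟩ (fun x hx => absurd (mem_univ x) hx)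
  exact ⟨L, hL, hp⟩

end Pool.Agent.CYD
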