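import Pool.Agent.CYD.Setup
import Pool.Agent.CYD.SetupB

/-!
# Cycle-degree, cycle-degeneracy and the graph of dicolourings
-/

set_option autoImplicit false

namespace Pool.Agent.CYD

open Relation Finset

variable {V : Type}

/-- the cycle-degree of `v` in the digraph `D`: the least size of a set of vertices other than `v`
which meets every closed directed walk (equivalently, every directed cycle) through `v` -/
noncomputable def cycDeg (D : V → V → Prop) (v : V) : ℕ :=
  sInf {m | ∃ S : Finset V, v ∉ S ∧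
    ¬ TransGen (fun a b => D a b ∧ a ∉ S ∧ b ∉ S) v v ∧ S.card = m}

/-- the cycle-degeneracy of `D`: the greatest `m` such that some non-empty subdigraph `(U, E)` of `D`
(vertex set `U`, set of arcs `E`) has all its cycle-degrees at least `m` -/
noncomputable def cycDegeneracy (D : V → V → Prop) : ℕ :=
  sSup {m | ∃ (U : Finset V) (E : V → V → Prop), U.Nonempty ∧
    (∀ a b, E a b → D a b ∧ a ∈ U ∧ b ∈ U) ∧ ∀ v ∈ U, m ≤ cycDeg E v}

/-- `f` is a `k`-dicolouring: no closed directed walk (equivalently, no directed cycle) has all its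
vertices in one colour class -/
def IsDicol {k : ℕ} (D : V → V → Prop) (f : V → Fin k) : Prop :=
  ∀ (c : Fin k) (v : V), ¬ TransGen (fun a b => D a b ∧ f a = c ∧ f b = c) v v

/-- the `k`-dicolouring graph: two `k`-dicolourings are adjacent if they differ at exactly one
vertex -/
def dicolGraph [Fintype V] (D : V → V → Prop) (k : ℕ) :
    SimpleGraph {f : V → Fin k // IsDicol D f} where
  Adj f g := (univ.filter fun v => f.1 v ≠ g.1 v).card = 1
  symm := ⟨by
    intro f g h
    rw [← h]
    congr 1
    ext v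
    simp [ne_comm]⟩
  loopless := ⟨by
    intro f h
    simp at h⟩

/-- the out-neighbours of `v` in the strong component of `v` -/
noncomputable def strongOut [Fintype V] (D : V → V → Prop) (v : V) : Finset V := by
  classical exact univ.filter fun w => D v w ∧ ReflTransGen D w v

variable [DecidableEq V]

theorem exists_hits [Fintype V] {D : V → V → Prop} (hl : ∀ v, ¬ D v v) (v : V) :
    ∃ S : Finset V, Hits D v S ∧ S.card = cycDeg D v := by
  have hne : {m | ∃ S : Finset V, v ∉ S ∧
      ¬ TransGen (fun a b => D a b ∧ a ∉ S ∧ b ∉ S) v v ∧ S.card = m}.Nonempty := by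
    refine ⟨_, univ.erase v, notMem_erase v univ, fun h => ?_, rfl⟩
    obtain ⟨x, hx, -⟩ := TransGen.head'_iff.1 h
    have h1 : x = v := by
      by_contra h2
      exact hx.2.2 (mem_erase.2 ⟨h2, mem_univ x⟩)
    exact hl v (h1 ▸ hx.1)
  obtain ⟨S, h1, h2, h3⟩ := Nat.sInf_mem hne
  exact ⟨S, ⟨h1, h2⟩, h3⟩

theorem cycDeg_le {D : V → V → Prop} {v : V} {S : Finset V} (h : Hits D v S) :
    cycDeg D v ≤ S.card :=
  Nat.sInf_le ⟨S, h.1, h.2, rfl⟩

theorem exists_small [Fintype V] {D : V → V → Prop} (hl : ∀ v, ¬ D v v) {k : ℕ}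
    (hk : cycDegeneracy D + 2 ≤ k) (U : Finset V) (hU : U.Nonempty) (E : V → V → Prop)
    (hE : ∀ a b, E a b → D a b ∧ a ∈ U ∧ b ∈ U) :
    ∃ z ∈ U, ∃ S : Finset V, S.card + 2 ≤ k ∧ Hits E z S := by
  have hlE : ∀ v, ¬ E v v := fun v h => hl v (hE v v h).1
  by_contra hcon
  push Not at hcon
  have h1 : ∀ v ∈ U, k - 1 ≤ cycDeg E v := by
    intro v hv
    obtain ⟨S, hS, hc⟩ := exists_hits hlE v
    by_contra h2
    exact hcon v hv S (by omega) hS
  have hbdd : BddAbove {m | ∃ (U : Finset V) (E : V → V → Prop), U.Nonempty ∧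
      (∀ a b, E a b → D a b ∧ a ∈ U ∧ b ∈ U) ∧ ∀ v ∈ U, m ≤ cycDeg E v} := by
    refine ⟨Fintype.card V, ?_⟩
    rintro m ⟨U, E, ⟨v, hv⟩, hE, hm⟩
    refine (hm v hv).trans ?_
    obtain ⟨S, hS, hc⟩ := exists_hits (fun v h => hl v (hE v v h).1) v
    rw [← hc]
    exact card_le_univ S
  have h2 : k - 1 ≤ cycDegeneracy D := le_csSup hbdd ⟨U, E, hU, hE, h1⟩
  omega

theorem isDicol_iff [Fintype V] {k : ℕ} {D : V → V → Prop} {f : V → Fin k} :
    IsDicol D f ↔ ∀ c, Acyc D (univ.filter fun v => f v = c) := by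
  constructor
  · intro h c v hv
    refine h c v (tg_mono hv fun a b hab => ?_)
    exact ⟨hab.1, (mem_filter.1 hab.2.1).2, (mem_filter.1 hab.2.2).2⟩
  · intro h c v hv
    refine h c v (tg_mono hv fun a b hab => ?_)
    exact ⟨hab.1, mem_filter.2 ⟨mem_univ _, hab.2.1⟩, mem_filter.2 ⟨mem_univ _, hab.2.2⟩⟩

/-- a sequence of recolourings is a walk in the dicolouring graph -/
theorem exists_walk [Fintype V] {k : ℕ} {D E : V → V → Prop}
    (hDE : ∀ T : Finset V, Acyc E T → Acyc D T) {L : ℕ} {f g : V → Fin k}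
    (h : Pth E (univ : Finset V) (univ : Finset (Fin k)) L f g) (hf : IsDicol D f)
    (hg : IsDicol D g) : ∃ p : (dicolGraph D k).Walk ⟨f, hf⟩ ⟨g, hg⟩, p.length ≤ L := by
  induction h with
  | refl f hf' => exact ⟨SimpleGraph.Walk.nil, le_rfl⟩
  | step v c h hv hc ih =>
    rename_i n f g
    have hg' : IsDicol D g := isDicol_iff.2 fun c => hDE _ (h.right.2 c)
    obtain ⟨p, hp⟩ := ih hf hg'
    by_cases hgv : g v = c
    · have h1 : Function.update g v c = g := by
        rw [← hgv]
        exact Function.update_eq_self v g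
      have h2 : (⟨Function.update g v c, hg⟩ : {f : V → Fin k // IsDicol D f}) = ⟨g, hg'⟩ :=
        Subtype.ext h1
      rw [h2]
      exact ⟨p, by omega⟩
    · have hadj : (dicolGraph D k).Adj ⟨g, hg'⟩ ⟨Function.update g v c, hg⟩ := by
        show (univ.filter fun x => g x ≠ Function.update g v c x).card = 1
        rw [card_eq_one]
        refine ⟨v, ?_⟩
        ext x
        rw [mem_filter, mem_singleton]
        constructor
        · intro hx
          by_contra hxv
          rw [Function.update_of_ne hxv] at hx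
          exact hx.2 rfl
        · rintro rfl
          rw [Function.update_self]
          exact ⟨mem_univ _, hgv⟩
      refine ⟨p.append (SimpleGraph.Walk.cons hadj SimpleGraph.Walk.nil), ?_⟩
      rw [SimpleGraph.Walk.length_append]
      simp only [SimpleGraph.Walk.length_cons, SimpleGraph.Walk.length_nil]
      omega

/-- the arcs inside strong components -/
theorem acyc_of_strong {D : V → V → Prop} {T : Finset V}
    (h : Acyc (fun a b => D a b ∧ ReflTransGen D b a) T) : Acyc D T := by
  intro v hv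
  refine h v ?_
  have key : ∀ x, TransGen (fun a b => D a b ∧ a ∈ T ∧ b ∈ T) v x →
      ReflTransGen D x v →
      TransGen (fun a b => (D a b ∧ ReflTransGen D b a) ∧ a ∈ T ∧ b ∈ T) v x := by
    intro x hx
    induction hx with
    | single hab => exact fun h2 => TransGen.single ⟨⟨hab.1, h2⟩, hab.2⟩
    | tail hab hbc ih =>
      rename_i b c
      intro h2
      have h3 : ReflTransGen D b v := ReflTransGen.head hbc.1 h2
      have h4 : ReflTransGen D v b := (TransGen.mono (fun a b h => h.1) _ _ hab).to_reflTransGen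
      exact TransGen.tail (ih h3) ⟨⟨hbc.1, h2.trans h4⟩, hbc.2⟩
  exact key v hv ReflTransGen.refl

end Pool.Agent.CYD
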