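import Pool.Agent.CYD.Release

/-!
# The induction on the number of colours
-/

set_option autoImplicit false

namespace Pool.Agent.CYD

open Relation Finset

variable {V C : Type} [DecidableEq V] [DecidableEq C]

/-- the greedy acyclic set -/
theorem exists_greedy (D : V → V → Prop) (r : V → ℕ) (W : Finset V) :
    ∃ B ⊆ W, Acyc D B ∧
      ∀ v ∈ W, v ∉ B → ¬ Acyc D (insert v (B.filter fun b => r v ≤ r b)) := by
  classical
  have hne : (W.powerset.filter fun B => Acyc D B).Nonempty :=
    ⟨∅, mem_filter.2 ⟨empty_mem_powerset W, acyc_empty⟩⟩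
  obtain ⟨B, hB, hmax⟩ := exists_max_image (W.powerset.filter fun B => Acyc D B)
    (fun B => ∑ b ∈ B, (W.card + 1) ^ r b) hne
  rw [mem_filter, mem_powerset] at hB
  refine ⟨B, hB.1, hB.2, ?_⟩
  intro v hvW hvB hac
  have h1 : insert v (B.filter fun b => r v ≤ r b) ∈ W.powerset.filter fun B => Acyc D B := by
    refine mem_filter.2 ⟨mem_powerset.2 ?_, hac⟩
    intro x hx
    rcases mem_insert.1 hx with h | h
    · exact h ▸ hvW
    · exact hB.1 (mem_filter.1 h).1
  have h2 := hmax _ h1
  rw [sum_insert (fun h => hvB (mem_filter.1 h).1)] at h2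
  rw [← sum_filter_add_sum_filter_not B (fun b => r v ≤ r b)] at h2
  have h3 : ∑ b ∈ B.filter (fun b => ¬ r v ≤ r b), (W.card + 1) ^ r b < (W.card + 1) ^ r v := by
    rcases Nat.eq_zero_or_pos (r v) with h0 | h0
    · rw [filter_false_of_mem (fun b _ => by omega), sum_empty]
      positivity
    · calc ∑ b ∈ B.filter (fun b => ¬ r v ≤ r b), (W.card + 1) ^ r b
          ≤ ∑ b ∈ B.filter (fun b => ¬ r v ≤ r b), (W.card + 1) ^ (r v - 1) := by
            refine sum_le_sum fun b hb => ?_
            have := (mem_filter.1 hb).2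
            exact Nat.pow_le_pow_right (by omega) (by omega)
        _ = (B.filter (fun b => ¬ r v ≤ r b)).card * (W.card + 1) ^ (r v - 1) := by
            rw [sum_const, smul_eq_mul]
        _ ≤ W.card * (W.card + 1) ^ (r v - 1) :=
            Nat.mul_le_mul_right _ ((card_filter_le _ _).trans (card_le_card hB.1))
        _ < (W.card + 1) * (W.card + 1) ^ (r v - 1) :=
            Nat.mul_lt_mul_of_pos_right (Nat.lt_succ_self _) (by positivity)
        _ = (W.card + 1) ^ r v := by
            rw [← pow_succ']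
            congr 1
            omega
  omega

/-- the hypothesis of the induction -/
def Good (D : V → V → Prop) (r : V → ℕ) (S : V → Finset V) (W : Finset V) (j : ℕ) : Prop :=
  ∀ v ∈ W, (S v ∩ W).card + 1 ≤ j ∧
    ((S v ∩ W).card + 1 = j → ∃ s ∈ S v ∩ W, r s < r v) ∧
    (r v ≠ 0 → ∀ X : Finset V, X ⊆ W → (∀ x ∈ X, D v x) → X.card + 1 ≤ j)

variable {D : V → V → Prop} {r : V → ℕ} {S : V → Finset V} {W : Finset V} {K : Finset C}

theorem Good.step (hl : ∀ v, ¬ D v v) (hS : ∀ v, Hits D v (S v)) {j : ℕ} (hG : Good D r S W (j + 1))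
    {B : Finset V} (hBW : B ⊆ W) (hB : Acyc D B)
    (hmax : ∀ v ∈ W, v ∉ B → ¬ Acyc D (insert v (B.filter fun b => r v ≤ r b))) :
    Good D r S (W \ B) j := by
  intro v hv
  rw [mem_sdiff] at hv
  obtain ⟨h1, h2, h3⟩ := hG v hv.1
  have hT : Acyc D (B.filter fun b => r v ≤ r b) := hB.mono (filter_subset _ _)
  obtain ⟨b3, hb3S, hb3⟩ := blocked_hits hT (hmax v hv.1 hv.2) (hS v)
  obtain ⟨b1, hb1, hb1D⟩ := blocked_out hl hT (hmax v hv.1 hv.2)
  rw [mem_filter] at hb3 hb1
  have hsub : S v ∩ (W \ B) ⊆ (S v ∩ W).erase b3 := by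
    intro x hx
    rw [mem_inter, mem_sdiff] at hx
    refine mem_erase.2 ⟨?_, mem_inter.2 ⟨hx.1, hx.2.1⟩⟩
    rintro rfl
    exact hx.2.2 hb3.1
  have hb3I : b3 ∈ S v ∩ W := mem_inter.2 ⟨hb3S, hBW hb3.1⟩
  have hc1 : ((S v ∩ W).erase b3).card + 1 = (S v ∩ W).card := card_erase_add_one hb3I
  have hc2 := card_le_card hsub
  refine ⟨by omega, ?_, ?_⟩
  · intro heq
    obtain ⟨s, hs, hsr⟩ := h2 (by omega)
    refine ⟨s, ?_, hsr⟩
    have hs3 : s ≠ b3 := by
      rintro rfl
      omega
    have heq2 : S v ∩ (W \ B) = (S v ∩ W).erase b3 := eq_of_subset_of_card_le hsub (by omega)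
    rw [heq2]
    exact mem_erase.2 ⟨hs3, hs⟩
  · intro hr X hX hXD
    have hb1X : b1 ∉ X := fun h => (mem_sdiff.1 (hX h)).2 hb1.1
    have := h3 hr (insert b1 X) (by
      intro x hx
      rcases mem_insert.1 hx with h | h
      · exact h ▸ hBW hb1.1
      · exact (mem_sdiff.1 (hX h)).1) (by
      intro x hx
      rcases mem_insert.1 hx with h | h
      · exact h ▸ hb1D
      · exact hXD x h)
    rw [card_insert_of_notMem hb1X] at this
    omega

/-- the number of vertices of positive rank -/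
theorem card_pos_le (hl : ∀ v, ¬ D v v) {j : ℕ} (hG : Good D r S W (j + 1))
    {B : Finset V} (hBW : B ⊆ W) (hB : Acyc D B)
    (hmax : ∀ v ∈ W, v ∉ B → ¬ Acyc D (insert v (B.filter fun b => r v ≤ r b))) :
    (W.filter fun v => r v ≠ 0).card ≤ (j + 1) * B.card := by
  classical
  have hsub : (W.filter fun v => r v ≠ 0) ⊆
      B ∪ (B.filter fun b => r b ≠ 0).biUnion fun b => W.filter fun x => D b x := by
    intro v hv
    rw [mem_filter] at hv
    by_cases hvB : v ∈ B
    · exact mem_union_left _ hvB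
    · refine mem_union_right _ ?_
      have hT : Acyc D (B.filter fun b => r v ≤ r b) := hB.mono (filter_subset _ _)
      obtain ⟨b, hb, hbD⟩ := blocked_in hl hT (hmax v hv.1 hvB)
      rw [mem_filter] at hb
      rw [mem_biUnion]
      exact ⟨b, mem_filter.2 ⟨hb.1, by omega⟩, mem_filter.2 ⟨hv.1, hbD⟩⟩
  calc (W.filter fun v => r v ≠ 0).card
      ≤ (B ∪ (B.filter fun b => r b ≠ 0).biUnion fun b => W.filter fun x => D b x).card :=
        card_le_card hsub
    _ ≤ B.card + ((B.filter fun b => r b ≠ 0).biUnion fun b => W.filter fun x => D b x).card :=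
        card_union_le _ _
    _ ≤ B.card + ∑ b ∈ B.filter fun b => r b ≠ 0, (W.filter fun x => D b x).card :=
        Nat.add_le_add_left card_biUnion_le _
    _ ≤ B.card + ∑ b ∈ B.filter fun b => r b ≠ 0, j := by
        refine Nat.add_le_add_left (sum_le_sum fun b hb => ?_) _
        rw [mem_filter] at hb
        have := (hG b (hBW hb.1)).2.2 hb.2 (W.filter fun x => D b x) (filter_subset _ _)
          (fun x hx => (mem_filter.1 hx).2)
        omega
    _ ≤ B.card + B.card * j := by
        rw [sum_const, smul_eq_mul]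
        exact Nat.add_le_add_left (Nat.mul_le_mul_right _ (card_filter_le _ _)) _
    _ = (j + 1) * B.card := by ring

theorem pot_le {n : ℕ} (hr : ∀ v, r v < n) {κ : C} {f : V → C} :
    Pot W r κ f ≤ 2 * n * ((W.filter fun v => r v ≠ 0).filter fun x => f x = κ).card + W.card := by
  classical
  unfold Pot
  calc ∑ x ∈ W, (if f x = κ then 2 * r x + 1 else 0)
      ≤ ∑ x ∈ W, ((if r x ≠ 0 ∧ f x = κ then 2 * n else 0) + 1) := by
        refine sum_le_sum fun x _ => ?_
        have := hr x
        split_ifs with h1 h2 h2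
        · omega
        · have : r x = 0 := by
            by_contra h3
            exact h2 ⟨h3, h1⟩
          omega
        · omega
        · omega
    _ = 2 * n * ((W.filter fun v => r v ≠ 0).filter fun x => f x = κ).card + W.card := by
        rw [sum_add_distrib, ← sum_filter, sum_const, sum_const, filter_filter, smul_eq_mul,
          smul_eq_mul]
        ring

/-- a path for `W \ B` is a path for `W` if `B` keeps the remaining colour -/
theorem Pth.lift {B : Finset V} {κ : C} (hBW : B ⊆ W) (hB : Acyc D B) (hκ : κ ∈ K) {L : ℕ}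
    {f g : V → C} (h : Pth D (W \ B) (K.erase κ) L f g) (hf : ∀ b ∈ B, f b = κ) :
    Pth D W K L f g := by
  have key : ∀ {f : V → C}, Col D (W \ B) (K.erase κ) f → (∀ b ∈ B, f b = κ) → Col D W K f := by
    intro f h1 h2
    refine ⟨fun v hv => ?_, fun c => ?_⟩
    · by_cases hvB : v ∈ B
      · rw [h2 v hvB]
        exact hκ
      · exact mem_of_mem_erase (h1.1 v (mem_sdiff.2 ⟨hv, hvB⟩))
    · by_cases hc : c = κ
      · refine hB.mono ?_
        intro x hx
        rw [mem_cls] at hx
        by_contra hxB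
        exact ne_of_mem_erase (h1.1 x (mem_sdiff.2 ⟨hx.1, hxB⟩)) (hx.2.trans hc)
      · refine (h1.2 c).mono ?_
        intro x hx
        rw [mem_cls] at hx ⊢
        refine ⟨mem_sdiff.2 ⟨hx.1, fun hxB => hc ?_⟩, hx.2⟩
        rw [← hx.2, h2 x hxB]
  have key2 : ∀ {L : ℕ} {f g : V → C}, Pth D (W \ B) (K.erase κ) L f g → (∀ b ∈ B, f b = κ) →
      (∀ b ∈ B, g b = κ) := by
    intro L f g h hf b hb
    rw [h.eq_off (fun h => (mem_sdiff.1 h).2 hb)]
    exact hf b hb
  induction h with
  | refl f hcf => exact Pth.refl f (key hcf hf)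
  | step v c h hv hc ih =>
    refine Pth.step v c (ih hf) (mem_sdiff.1 hv).1 (key hc ?_)
    exact key2 (Pth.step v c h hv hc) hf

theorem main_ind (hl : ∀ v, ¬ D v v) (hS : ∀ v, Hits D v (S v)) {n : ℕ} (hr : ∀ v, r v < n) :
    ∀ m : ℕ, ∀ (W : Finset V) (K : Finset C), W.card = m → W.card ≤ n → Good D r S W K.card →
    ∀ f g : V → C, Col D W K f → Col D W K g → (∀ x, x ∉ W → f x = g x) →
      ∃ L : ℕ, L ≤ 9 * n * W.card ∧ Pth D W K L f g := by
  intro m
  induction m using Nat.strong_induction_on with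
  | _ m ih =>
  intro W K hWm hWn hG f g hf hg hfg
  rcases W.eq_empty_or_nonempty with hW | hW
  · subst hW
    have : f = g := by
      funext x
      exact hfg x (by simp)
    subst this
    exact ⟨0, Nat.zero_le _, Pth.refl f hf⟩
  obtain ⟨v0, hv0⟩ := hW
  obtain ⟨j, hj⟩ : ∃ j, K.card = j + 1 := by
    have := (hG v0 hv0).1
    exact ⟨K.card - 1, by omega⟩
  obtain ⟨B, hBW, hB, hmax⟩ := exists_greedy D r W
  have hBne : 1 ≤ B.card := by
    rw [Nat.one_le_iff_ne_zero, Ne, card_eq_zero]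
    rintro rfl
    have hT : Acyc D ((∅ : Finset V).filter fun b => r v0 ≤ r b) := hB.mono (filter_subset _ _)
    obtain ⟨x, hx, -⟩ := blocked_out hl hT (hmax v0 hv0 (by simp))
    simp at hx
  rw [hj] at hG
  have hcount := card_pos_le hl hG hBW hB hmax
  have hKne : K.Nonempty := ⟨f v0, hf.1 v0 hv0⟩
  have hn1 : 1 ≤ n := by
    have := hr v0
    omega
  -- emptying
  have hempty : ∀ f : V → C, Col D W K f → ∃ κ ∈ K, ∃ (g : V → C) (L : ℕ),
      Pth D W K L f g ∧ (∀ x ∈ W, g x ≠ κ) ∧ L ≤ 3 * n * B.card := by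
    intro f hf
    obtain ⟨κ, hκ, hκc⟩ := exists_card_fiber_le_of_card_le_mul
      (s := W.filter fun v => r v ≠ 0) (t := K) (f := f) (n := B.card) hKne (by rw [hj]; exact hcount)
    obtain ⟨g, L, hp, hg0, hL⟩ := clear_class (r := r) (S := S) (fun v _ => hS v)
      (fun v hv => hj ▸ (hG v hv).1) (fun v hv => hj ▸ (hG v hv).2.1) κ _ f hf le_rfl
    refine ⟨κ, hκ, g, L, hp, hg0, ?_⟩
    have h1 := pot_le (W := W) hr (κ := κ) (f := f)
    have h2 : 2 * n * ((W.filter fun v => r v ≠ 0).filter fun x => f x = κ).card ≤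
        2 * n * B.card := Nat.mul_le_mul_left _ hκc
    have h3 : W.card ≤ n * B.card := hWn.trans (Nat.le_mul_of_pos_right n hBne)
    nlinarith
  obtain ⟨κ1, hκ1, f1, L1, hp1, hf1, hL1⟩ := hempty f hf
  obtain ⟨κ2, hκ2, g1, L2, hq1, hg1, hL2⟩ := hempty g hg
  -- renaming
  have hp2 := fill_class hκ1 hp1.right hf1 (cls W f1 κ2) (filter_subset _ _) (hp1.right.2 κ2)
  set f2 : V → C := fun x => if x ∈ cls W f1 κ2 then κ1 else f1 x with hf2
  have hf2κ : ∀ x ∈ W, f2 x ≠ κ2 := by
    intro x hx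
    by_cases h : x ∈ cls W f1 κ2
    · simp only [hf2, h, if_true]
      rintro rfl
      exact hf1 x hx (mem_cls.1 h).2
    · simp only [hf2, h, if_false]
      exact fun h2 => h (mem_cls.2 ⟨hx, h2⟩)
  -- filling
  have hp3 := fill_class hκ2 hp2.right hf2κ B hBW hB
  have hq3 := fill_class hκ2 hq1.right hg1 B hBW hB
  set f3 : V → C := fun x => if x ∈ B then κ2 else f2 x with hf3
  set g3 : V → C := fun x => if x ∈ B then κ2 else g1 x with hg3
  have hcol : ∀ h : V → C, Col D W K h → (∀ x ∈ W, h x ≠ κ2) →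
      Col D (W \ B) (K.erase κ2) (fun x => if x ∈ B then κ2 else h x) := by
    intro h h1 h2
    refine ⟨fun v hv => ?_, fun c => ?_⟩
    · rw [mem_sdiff] at hv
      simp only [hv.2, if_false]
      exact mem_erase.2 ⟨h2 v hv.1, h1.1 v hv.1⟩
    · refine (h1.2 c).mono ?_
      intro x hx
      rw [mem_cls, mem_sdiff] at hx
      simp only [hx.1.2, if_false] at hx
      exact mem_cls.2 ⟨hx.1.1, hx.2⟩
  have hWB : (W \ B).card + B.card = W.card := card_sdiff_add_card_eq_card hBW
  have hKc : (K.erase κ2).card = j := by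
    rw [card_erase_of_mem hκ2, hj]
    rfl
  obtain ⟨L3, hL3, hp4⟩ := ih (W \ B).card (by omega) (W \ B) (K.erase κ2) rfl (by omega)
    (by rw [hKc]; exact hG.step hl hS hBW hB hmax) f3 g3
    (hcol f2 hp2.right hf2κ) (hcol g1 hq1.right hg1) (by
      intro x hx
      by_cases hxB : x ∈ B
      · simp only [hf3, hg3, hxB, if_true]
      · have hxW : x ∉ W := fun h => hx (mem_sdiff.2 ⟨h, hxB⟩)
        have e1 : f2 x = f1 x := hp2.eq_off hxW
        simp only [hf3, hg3, hxB, if_false]
        rw [e1, hp1.eq_off hxW, hq1.eq_off hxW]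
        exact hfg x hxW)
  have hp5 := hp4.lift hBW hB hκ2 (by
    intro b hb
    simp only [hf3, hb, if_true])
  refine ⟨_, ?_, (((hp1.trans hp2).trans hp3).trans hp5).trans (hq3.symm.trans hq1.symm)⟩
  have h1 : (cls W f1 κ2).card ≤ n := (card_filter_le _ _).trans hWn
  have h2 : n ≤ n * B.card := Nat.le_mul_of_pos_right n hBne
  have h3 : B.card ≤ n * B.card := Nat.le_mul_of_pos_left _ hn1
  have h4 : 9 * n * W.card = 9 * n * (W \ B).card + 9 * (n * B.card) := by
    rw [← hWB]
    ring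
  rw [h4]
  have h5 : 3 * n * B.card = 3 * (n * B.card) := by ring
  omega

end Pool.Agent.CYD
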