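import Pool.Agent.CYD.Release

/-!
# Releasing a vertex when all cycle-degrees are less than the number of colours
-/

set_option autoImplicit false

namespace Pool.Agent.CYD

open Relation Finset

variable {V C : Type} [DecidableEq V] [DecidableEq C]
variable {D : V → V → Prop} {W : Finset V} {K : Finset C}

/-- a vertex blocked in all other classes meets its hitting set once in each other class -/
theorem blocked_image {f : V → C} (hf : Col D W K f) {t : V} (ht : t ∈ W) {S : Finset V}
    (hS : Hits D t S) (hc : (S ∩ W).card + 1 ≤ K.card)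
    (hb : ∀ e ∈ K, e ≠ f t → ¬ Acyc D (insert t (cls W f e))) :
    K.erase (f t) = (S ∩ W).image f ∧ Set.InjOn f (S ∩ W : Finset V) := by
  have hblock : ∀ e ∈ K.erase (f t), ∃ x ∈ S ∩ W, f x = e := by
    intro e he'
    obtain ⟨x, hx1, hx2⟩ := blocked_hits (hf.2 e)
      (hb e (mem_of_mem_erase he') (ne_of_mem_erase he')) hS
    rw [mem_cls] at hx2
    exact ⟨x, mem_inter.2 ⟨hx1, hx2.1⟩, hx2.2⟩
  have hsub : K.erase (f t) ⊆ (S ∩ W).image f := by
    intro e he'
    obtain ⟨x, hx, hxe⟩ := hblock e he'
    exact mem_image.2 ⟨x, hx, hxe⟩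
  have hftK : f t ∈ K := hf.1 t ht
  have hcardK : (K.erase (f t)).card + 1 = K.card := card_erase_add_one hftK
  have h1 : (K.erase (f t)).card ≤ ((S ∩ W).image f).card := card_le_card hsub
  have h2 : ((S ∩ W).image f).card ≤ (S ∩ W).card := card_image_le
  exact ⟨eq_of_subset_of_card_le hsub (by omega), card_image_iff.1 (by omega)⟩

/-- a closed walk through `t` inside `insert t T` has a vertex of `T` after `t`, or it is inside the
part of `insert t T` before `t` -/
theorem exists_late {T : Finset V} {τ : V → ℕ} {t : V}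
    (h : TransGen (fun a b => D a b ∧ a ∈ insert t T ∧ b ∈ insert t T) t t) :
    (∃ y ∈ T, τ t < τ y ∧
      TransGen (fun a b => D a b ∧ a ∈ insert t T ∧ b ∈ insert t T) t y ∧
      TransGen (fun a b => D a b ∧ a ∈ insert t T ∧ b ∈ insert t T) y t) ∨
    TransGen (fun a b => D a b ∧ a ∈ insert t (T.filter fun y => τ y ≤ τ t) ∧
      b ∈ insert t (T.filter fun y => τ y ≤ τ t)) t t := by
  by_contra hcon
  push Not at hcon
  obtain ⟨hno, hno2⟩ := hcon
  have hmem : ∀ a ∈ insert t T,
      TransGen (fun a b => D a b ∧ a ∈ insert t T ∧ b ∈ insert t T) t a →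
      ReflTransGen (fun a b => D a b ∧ a ∈ insert t T ∧ b ∈ insert t T) a t →
      a ∈ insert t (T.filter fun y => τ y ≤ τ t) := by
    intro a ha h1 h2
    rcases mem_insert.1 ha with h3 | h3
    · rw [h3]
      exact mem_insert_self _ _
    · by_cases h4 : τ a ≤ τ t
      · exact mem_insert_of_mem (mem_filter.2 ⟨h3, h4⟩)
      · exfalso
        have hat : a ≠ t := by
          rintro rfl
          exact h4 le_rfl
        rcases reflTransGen_iff_eq_or_transGen.1 h2 with h5 | h5
        · exact hat h5.symm
        · exact hno a h3 (by omega) h1 h5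
  have key : ∀ a, TransGen (fun a b => D a b ∧ a ∈ insert t T ∧ b ∈ insert t T) t a →
      ReflTransGen (fun a b => D a b ∧ a ∈ insert t T ∧ b ∈ insert t T) a t →
      TransGen (fun a b => D a b ∧ a ∈ insert t (T.filter fun y => τ y ≤ τ t) ∧
        b ∈ insert t (T.filter fun y => τ y ≤ τ t)) t a := by
    intro a h1
    induction h1 with
    | single hab =>
      intro h2
      exact TransGen.single ⟨hab.1, mem_insert_self _ _,
        hmem _ hab.2.2 (TransGen.single hab) h2⟩
    | tail hab hbc ih =>
      intro h2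
      have h3 : ReflTransGen (fun a b => D a b ∧ a ∈ insert t T ∧ b ∈ insert t T) _ t :=
        ReflTransGen.head hbc h2
      exact TransGen.tail (ih h3) ⟨hbc.1, hmem _ hbc.2.1 hab h3,
        hmem _ hbc.2.2 (TransGen.tail hab hbc) h2⟩
  exact hno2 (key t h ReflTransGen.refl)

/-- clearing the class `c` for `t` by moving later vertices out of it -/
theorem clear_for {S : V → Finset V} (hS : ∀ v ∈ W, Hits D v (S v))
    (hc : ∀ v ∈ W, (S v ∩ W).card + 1 ≤ K.card) {τ : V → ℕ} {t : V} (ht : t ∈ W)
    (hearly : ∀ s ∈ S t ∩ W, τ s ≤ τ t) {P : Finset V}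
    (hP : Hits (fun a b => D a b ∧ τ a ≤ τ t ∧ τ b ≤ τ t) t P) {c : C} :
    ∀ (N : ℕ) (f : V → C), Col D W K f → c ≠ f t →
      (∀ p ∈ P, p ∈ W → τ p ≤ τ t → f p ≠ c) →
      (∀ e ∈ K, e ≠ f t → e ≠ c → ¬ Acyc D (insert t (cls W f e))) →
      ((cls W f c).filter fun y => τ t < τ y).card ≤ N →
      ∃ (g : V → C) (L : ℕ), Pth D W K L f g ∧ (∀ x, τ x ≤ τ t → g x = f x) ∧
        Acyc D (insert t (cls W g c)) ∧ L ≤ N := by
  intro N
  induction N with
  | zero =>
    intro f hf hct hPc hb hN
    refine ⟨f, 0, Pth.refl f hf, fun _ _ => rfl, ?_, le_rfl⟩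
    refine acyc_insert (hf.2 c) fun h => ?_
    rcases exists_late (τ := τ) h with ⟨y, hy, hyt, -⟩ | h1
    · have : y ∈ (cls W f c).filter fun y => τ t < τ y := mem_filter.2 ⟨hy, hyt⟩
      rw [card_eq_zero.1 (Nat.le_zero.1 hN)] at this
      simp at this
    · refine hP.2 (tg_mono h1 ?_)
      have key : ∀ a ∈ insert t ((cls W f c).filter fun y => τ y ≤ τ t), τ a ≤ τ t ∧ a ∉ P := by
        intro a ha
        rcases mem_insert.1 ha with h2 | h2
        · rw [h2]
          exact ⟨le_rfl, hP.1⟩
        · rw [mem_filter, mem_cls] at h2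
          exact ⟨h2.2, fun h3 => hPc a h3 h2.1.1 h2.2 h2.1.2⟩
      exact fun a b hab => ⟨⟨hab.1, (key a hab.2.1).1, (key b hab.2.2).1⟩,
        (key a hab.2.1).2, (key b hab.2.2).2⟩
  | succ N ih =>
    intro f hf hct hPc hb hN
    by_cases hac : Acyc D (insert t (cls W f c))
    · exact ⟨f, 0, Pth.refl f hf, fun _ _ => rfl, hac, Nat.zero_le _⟩
    have hwalk : TransGen (fun a b => D a b ∧ a ∈ insert t (cls W f c) ∧
        b ∈ insert t (cls W f c)) t t := by
      by_contra h
      exact hac (acyc_insert (hf.2 c) h)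
    have hlate : ∃ y ∈ cls W f c, τ t < τ y ∧
        TransGen (fun a b => D a b ∧ a ∈ insert t (cls W f c) ∧ b ∈ insert t (cls W f c)) t y ∧
        TransGen (fun a b => D a b ∧ a ∈ insert t (cls W f c) ∧ b ∈ insert t (cls W f c)) y t := by
      rcases exists_late (τ := τ) hwalk with h | h1
      · exact h
      · exfalso
        refine hP.2 (tg_mono h1 ?_)
        have key : ∀ a ∈ insert t ((cls W f c).filter fun y => τ y ≤ τ t),
            τ a ≤ τ t ∧ a ∉ P := by
          intro a ha
          rcases mem_insert.1 ha with h2 | h2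
          · rw [h2]
            exact ⟨le_rfl, hP.1⟩
          · rw [mem_filter, mem_cls] at h2
            exact ⟨h2.2, fun h3 => hPc a h3 h2.1.1 h2.2 h2.1.2⟩
        exact fun a b hab => ⟨⟨hab.1, (key a hab.2.1).1, (key b hab.2.2).1⟩,
          (key a hab.2.1).2, (key b hab.2.2).2⟩
    obtain ⟨y, hy, hyt, hty, hyt2⟩ := hlate
    rw [mem_cls] at hy
    have hyt' : y ≠ t := by
      rintro rfl
      exact lt_irrefl _ hyt
    -- `y` is not blocked
    have hfree : ∃ e ∈ K, e ≠ c ∧ Acyc D (insert y (cls W f e)) := by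
      by_contra hcon
      push Not at hcon
      obtain ⟨himy, hinjy⟩ := blocked_image hf hy.1 (hS y hy.1) (hc y hy.1)
        (fun e he hne => hcon e he (hy.2 ▸ hne))
      obtain ⟨himt, -⟩ := blocked_image hf ht (hS t ht) (hc t ht) (by
        intro e he hne
        by_cases hec : e = c
        · rw [hec]
          exact hac
        · exact hb e he hne hec)
      have hfS : ∀ s ∈ S y, s ∈ W → f s ≠ c := by
        intro s hs hsW h
        have : f s ∈ (S y ∩ W).image f := mem_image_of_mem f (mem_inter.2 ⟨hs, hsW⟩)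
        rw [← himy, hy.2, h] at this
        exact ne_of_mem_erase this rfl
      have htS : t ∈ S y := by
        by_contra htS
        refine (hS y hy.1).2 (tg_mono (TransGen.trans hyt2 hty) ?_)
        have key : ∀ a ∈ insert t (cls W f c), a ∉ S y := by
          intro a ha has
          rcases mem_insert.1 ha with h2 | h2
          · exact htS (h2 ▸ has)
          · rw [mem_cls] at h2
            exact hfS a has h2.1 h2.2
        exact fun a b hab => ⟨hab.1, key a hab.2.1, key b hab.2.2⟩
      have hya : ¬ Acyc D (insert y (cls W f (f t))) := hcon (f t) (hf.1 t ht) hct.symm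
      have hT' : Acyc D (insert y ((cls W f (f t)).erase t)) := by
        refine acyc_insert_of_hits ((hf.2 (f t)).mono (erase_subset _ _)) (hS y hy.1) ?_
        intro x hx hx2
        rw [mem_erase, mem_cls] at hx2
        exact hx2.1 (hinjy (mem_coe.2 (mem_inter.2 ⟨hx, hx2.2.1⟩))
          (mem_coe.2 (mem_inter.2 ⟨htS, ht⟩)) hx2.2.2)
      have heq : insert t (insert y ((cls W f (f t)).erase t)) = insert y (cls W f (f t)) := by
        rw [Finset.insert_comm, insert_erase (mem_cls.2 ⟨ht, rfl⟩)]
      have hwalk2 : TransGen (fun a b => D a b ∧ a ∈ insert y (cls W f (f t)) ∧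
          b ∈ insert y (cls W f (f t))) t t := by
        by_contra h
        refine hya ?_
        rw [← heq] at h ⊢
        exact acyc_insert hT' h
      have hySt : y ∈ S t := by
        by_contra hySt
        refine (hS t ht).2 (tg_mono hwalk2 ?_)
        have key : ∀ a ∈ insert y (cls W f (f t)), a ∉ S t := by
          intro a ha has
          rcases mem_insert.1 ha with h2 | h2
          · exact hySt (h2 ▸ has)
          · rw [mem_cls] at h2
            have : f a ∈ (S t ∩ W).image f := mem_image_of_mem f (mem_inter.2 ⟨has, h2.1⟩)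
            rw [← himt, h2.2] at this
            exact ne_of_mem_erase this rfl
        exact fun a b hab => ⟨hab.1, key a hab.2.1, key b hab.2.2⟩
      have := hearly y (mem_inter.2 ⟨hySt, hy.1⟩)
      omega
    obtain ⟨e, heK, hec, heac⟩ := hfree
    have hcol : Col D W K (Function.update f y e) := hf.update heK heac
    have hft : Function.update f y e t = f t := Function.update_of_ne hyt'.symm _ _
    obtain ⟨g, L, hp, hg1, hg2, hL⟩ := ih (Function.update f y e) hcol (by rwa [hft])
      (by
        intro p hp hpW hpt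
        rw [Function.update_of_ne (by
          rintro rfl
          omega)]
        exact hPc p hp hpW hpt)
      (by
        intro e' he' hne hne2 hac'
        rw [hft] at hne
        refine hb e' he' hne hne2 (hac'.mono ?_)
        refine insert_subset_insert t ?_
        intro x hx
        rw [mem_cls] at hx ⊢
        refine ⟨hx.1, ?_⟩
        rw [Function.update_of_ne (by
          rintro rfl
          exact hne2 (hx.2.symm.trans hy.2))]
        exact hx.2)
      (by
        have hsub : ((cls W (Function.update f y e) c).filter fun z => τ t < τ z) ⊆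
            ((cls W f c).filter fun z => τ t < τ z).erase y := by
          intro x hx
          rw [mem_filter, mem_cls] at hx
          have hxy : x ≠ y := by
            rintro rfl
            rw [Function.update_self] at hx
            exact hec hx.1.2
          rw [Function.update_of_ne hxy] at hx
          exact mem_erase.2 ⟨hxy, mem_filter.2 ⟨mem_cls.2 hx.1, hx.2⟩⟩
        have h1 := card_le_card hsub
        have h2 : (((cls W f c).filter fun z => τ t < τ z).erase y).card + 1 =
            ((cls W f c).filter fun z => τ t < τ z).card :=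
          card_erase_add_one (mem_filter.2 ⟨mem_cls.2 hy, hyt⟩)
        omega)
    refine ⟨g, 1 + L, (Pth.single hf hy.1 hcol).trans hp, ?_, hg2, by omega⟩
    intro x hx
    rw [hg1 x hx, Function.update_of_ne (by
      rintro rfl
      omega)]

/-- releasing a vertex; only later vertices are recoloured -/
theorem releaseB {S P : V → Finset V} {τ : V → ℕ} (hS : ∀ v ∈ W, Hits D v (S v))
    (hc : ∀ v ∈ W, (S v ∩ W).card + 1 ≤ K.card)
    (hP : ∀ v ∈ W, Hits (fun a b => D a b ∧ τ a ≤ τ v ∧ τ b ≤ τ v) v (P v))
    (hPc : ∀ v ∈ W, (P v ∩ W).card + 2 ≤ K.card) :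
    ∀ m : ℕ, ∀ t ∈ W, (W.filter fun u => τ t ≤ τ u).card = m → ∀ f : V → C, Col D W K f →
      ∃ (g : V → C) (L : ℕ), Pth D W K L f g ∧ g t ≠ f t ∧
        (∀ x, x ≠ t → τ x ≤ τ t → g x = f x) ∧ L ≤ m := by
  intro m
  induction m using Nat.strong_induction_on with
  | _ m ih =>
  intro t ht hm f hf
  have htm : t ∈ W.filter fun u => τ t ≤ τ u := mem_filter.2 ⟨ht, le_rfl⟩
  have hm1 : 1 ≤ m := by
    rw [← hm]
    exact card_pos.2 ⟨t, htm⟩
  by_cases hfree : ∃ e ∈ K, e ≠ f t ∧ Acyc D (insert t (cls W f e))
  · obtain ⟨e, heK, het, hac⟩ := hfree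
    refine ⟨Function.update f t e, 1, Pth.single hf ht (hf.update heK hac), ?_, ?_, hm1⟩
    · rwa [Function.update_self]
    · intro x hx _
      rw [Function.update_of_ne hx]
  push Not at hfree
  obtain ⟨himg, hinj⟩ := blocked_image hf ht (hS t ht) (hc t ht) hfree
  by_cases hlate : ∃ s ∈ S t ∩ W, τ t < τ s
  · obtain ⟨s0, hs0, hs0t⟩ := hlate
    obtain ⟨s, hs, hmax⟩ := exists_max_image (S t ∩ W) τ ⟨s0, hs0⟩
    have hst : τ t < τ s := lt_of_lt_of_le hs0t (hmax s0 hs0)
    have hsW : s ∈ W := (mem_inter.1 hs).2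
    have hsne : s ≠ t := by
      rintro rfl
      exact lt_irrefl _ hst
    have hfs : f s ∈ K.erase (f t) := by
      rw [himg]
      exact mem_image_of_mem f hs
    have hlt : (W.filter fun u => τ s ≤ τ u).card < m := by
      rw [← hm]
      refine card_lt_card ⟨?_, fun h => ?_⟩
      · intro x hx
        rw [mem_filter] at hx ⊢
        exact ⟨hx.1, by omega⟩
      · have := (mem_filter.1 (h htm)).2
        omega
    obtain ⟨g, L, hp, hgs, hgx, hL⟩ := ih _ hlt s hsW rfl f hf
    have hgt : g t = f t := hgx t hsne.symm hst.le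
    have hgcol := hp.right
    have hac : Acyc D (insert t (cls W g (f s))) := by
      refine acyc_insert_of_hits (hgcol.2 _) (hS t ht) ?_
      intro x hx hx2
      rw [mem_cls] at hx2
      have hxI : x ∈ S t ∩ W := mem_inter.2 ⟨hx, hx2.1⟩
      by_cases hxs : x = s
      · subst hxs
        exact hgs hx2.2
      · have h4 : g x = f x := hgx x hxs (hmax x hxI)
        exact hxs (hinj hxI hs (h4 ▸ hx2.2))
    refine ⟨Function.update g t (f s), L + 1,
      Pth.step t (f s) hp ht (hgcol.update (mem_of_mem_erase hfs) hac), ?_, ?_, by omega⟩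
    · rw [Function.update_self]
      exact ne_of_mem_erase hfs
    · intro x hx hxr
      rw [Function.update_of_ne hx]
      refine hgx x ?_ (by omega)
      rintro rfl
      omega
  · push Not at hlate
    obtain ⟨c, hcK, hcP⟩ : ∃ c ∈ K.erase (f t), c ∉ (P t ∩ W).image f := by
      by_contra hcon
      push Not at hcon
      have h1 : (K.erase (f t)).card ≤ ((P t ∩ W).image f).card :=
        card_le_card fun e he => hcon e he
      have h2 : ((P t ∩ W).image f).card ≤ (P t ∩ W).card := card_image_le
      have h3 := hPc t ht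
      have h4 : (K.erase (f t)).card + 1 = K.card := card_erase_add_one (hf.1 t ht)
      omega
    obtain ⟨g, L, hp, hg1, hg2, hL⟩ := clear_for hS hc ht hlate (hP t ht) (c := c) _ f hf
      (ne_of_mem_erase hcK)
      (fun p hp hpW _ h => hcP (mem_image.2 ⟨p, mem_inter.2 ⟨hp, hpW⟩, h⟩))
      (fun e he hne _ => hfree e he hne) le_rfl
    refine ⟨Function.update g t c, L + 1,
      Pth.step t c hp ht (hp.right.update (mem_of_mem_erase hcK) hg2), ?_, ?_, ?_⟩
    · rw [Function.update_self]
      exact ne_of_mem_erase hcK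
    · intro x hx hxt
      rw [Function.update_of_ne hx]
      exact hg1 x hxt
    · have h1 : ((cls W f c).filter fun y => τ t < τ y).card < m := by
        rw [← hm]
        refine card_lt_card ⟨?_, fun h => ?_⟩
        · intro x hx
          rw [mem_filter, mem_cls] at hx
          exact mem_filter.2 ⟨hx.1.1, by omega⟩
        · have := (mem_filter.1 (h htm)).2
          omega
      omega

/-- a colour class can be emptied, the vertices being treated from the first one to the last one -/
theorem clear_classB {S P : V → Finset V} {τ : V → ℕ} (hS : ∀ v ∈ W, Hits D v (S v))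
    (hc : ∀ v ∈ W, (S v ∩ W).card + 1 ≤ K.card)
    (hP : ∀ v ∈ W, Hits (fun a b => D a b ∧ τ a ≤ τ v ∧ τ b ≤ τ v) v (P v))
    (hPc : ∀ v ∈ W, (P v ∩ W).card + 2 ≤ K.card)
    (hτ : ∀ a ∈ W, ∀ b ∈ W, τ a = τ b → a = b) (κ : C) :
    ∀ N : ℕ, ∀ θ : ℕ, (W.filter fun u => θ ≤ τ u).card ≤ N → ∀ f : V → C, Col D W K f →
      (∀ x ∈ W, f x = κ → θ ≤ τ x) → ∃ (g : V → C) (L : ℕ),
      Pth D W K L f g ∧ (∀ x ∈ W, g x ≠ κ) ∧ 2 * L ≤ N * (N + 1) := by
  intro N
  induction N with
  | zero =>
    intro θ hN f hf hθ
    refine ⟨f, 0, Pth.refl f hf, ?_, Nat.zero_le _⟩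
    intro x hx hfx
    have : x ∈ W.filter fun u => θ ≤ τ u := mem_filter.2 ⟨hx, hθ x hx hfx⟩
    rw [card_eq_zero.1 (Nat.le_zero.1 hN)] at this
    simp at this
  | succ N ih =>
    intro θ hN f hf hθ
    by_cases h : (cls W f κ).Nonempty
    · obtain ⟨t, ht, hmin⟩ := exists_min_image (cls W f κ) τ h
      rw [mem_cls] at ht
      obtain ⟨g, L, hp, hgt, hgx, hL⟩ := releaseB hS hc hP hPc _ t ht.1 rfl f hf
      have hlt : (W.filter fun u => τ t + 1 ≤ τ u).card < (W.filter fun u => θ ≤ τ u).card := by
        have hθt := hθ t ht.1 ht.2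
        refine card_lt_card ⟨?_, fun h => ?_⟩
        · intro x hx
          rw [mem_filter] at hx ⊢
          exact ⟨hx.1, by omega⟩
        · have := (mem_filter.1 (h (mem_filter.2 ⟨ht.1, hθt⟩))).2
          omega
      obtain ⟨g', L', hp', hg', hL'⟩ := ih (τ t + 1) (by omega) g hp.right (by
        intro x hx hgx'
        by_contra hcon
        have hxt : x ≠ t := by
          rintro rfl
          exact hgt (hgx'.trans ht.2.symm)
        have h1 : g x = f x := hgx x hxt (by omega)
        have h2 := hmin x (mem_cls.2 ⟨hx, h1 ▸ hgx'⟩)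
        exact hxt (hτ x hx t ht.1 (by omega)))
      refine ⟨g', L + L', hp.trans hp', hg', ?_⟩
      have h3 : (W.filter fun u => τ t ≤ τ u).card ≤ (W.filter fun u => θ ≤ τ u).card := by
        refine card_le_card fun x hx => ?_
        rw [mem_filter] at hx ⊢
        have hθt := hθ t ht.1 ht.2
        exact ⟨hx.1, by omega⟩
      have h4 : L ≤ N + 1 := hL.trans (h3.trans hN)
      calc 2 * (L + L') = 2 * L + 2 * L' := by ring
        _ ≤ 2 * (N + 1) + N * (N + 1) := Nat.add_le_add (Nat.mul_le_mul_left 2 h4) hL'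
        _ = (N + 1) * (N + 1 + 1) := by ring
    · refine ⟨f, 0, Pth.refl f hf, ?_, Nat.zero_le _⟩
      intro x hx hfx
      exact h ⟨x, mem_cls.2 ⟨hx, hfx⟩⟩

end Pool.Agent.CYD
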