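import Pool.Agent.CYD.Main
import Pool.Agent.CYD.ReleaseB

/-!
# The induction for bounded cycle-degrees
-/

set_option autoImplicit false

namespace Pool.Agent.CYD

open Relation Finset

variable {V C : Type} [DecidableEq V] [DecidableEq C]

/-- the hypothesis of the induction -/
def GoodB (S P : V → Finset V) (W : Finset V) (j : ℕ) : Prop :=
  ∀ v ∈ W, (S v ∩ W).card + 1 ≤ j ∧ (P v ∩ W).card + 2 ≤ j

variable {D : V → V → Prop} {τ : V → ℕ} {S P : V → Finset V} {W : Finset V} {K : Finset C}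

theorem card_inter_sdiff_lt {X B : Finset V} (hBW : B ⊆ W) {x : V} (hx : x ∈ X) (hxB : x ∈ B) :
    (X ∩ (W \ B)).card + 1 ≤ (X ∩ W).card := by
  have hsub : X ∩ (W \ B) ⊆ (X ∩ W).erase x := by
    intro y hy
    rw [mem_inter, mem_sdiff] at hy
    refine mem_erase.2 ⟨?_, mem_inter.2 ⟨hy.1, hy.2.1⟩⟩
    rintro rfl
    exact hy.2.2 hxB
  have h1 : ((X ∩ W).erase x).card + 1 = (X ∩ W).card :=
    card_erase_add_one (mem_inter.2 ⟨hx, hBW hxB⟩)
  have h2 := card_le_card hsub
  omega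

theorem GoodB.step (hS : ∀ v, Hits D v (S v))
    (hP : ∀ v, Hits (fun a b => D a b ∧ τ a ≤ τ v ∧ τ b ≤ τ v) v (P v)) {j : ℕ}
    (hG : GoodB S P W (j + 1)) {B : Finset V} (hBW : B ⊆ W) (hB : Acyc D B)
    (hmax : ∀ v ∈ W, v ∉ B → ¬ Acyc D (insert v (B.filter fun b => τ b ≤ τ v))) :
    GoodB S P (W \ B) j := by
  intro v hv
  rw [mem_sdiff] at hv
  obtain ⟨h1, h2⟩ := hG v hv.1
  have hT : Acyc D (B.filter fun b => τ b ≤ τ v) := hB.mono (filter_subset _ _)
  obtain ⟨b3, hb3S, hb3⟩ := blocked_hits hT (hmax v hv.1 hv.2) (hS v)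
  have hT2 : Acyc (fun a b => D a b ∧ τ a ≤ τ v ∧ τ b ≤ τ v)
      (B.filter fun b => τ b ≤ τ v) := by
    intro u hu
    exact hT u (tg_mono hu fun a b hab => ⟨hab.1.1, hab.2⟩)
  have hT3 : ¬ Acyc (fun a b => D a b ∧ τ a ≤ τ v ∧ τ b ≤ τ v)
      (insert v (B.filter fun b => τ b ≤ τ v)) := by
    intro h
    refine hmax v hv.1 hv.2 fun u hu => h u (tg_mono hu ?_)
    have key : ∀ a ∈ insert v (B.filter fun b => τ b ≤ τ v), τ a ≤ τ v := by
      intro a ha
      rcases mem_insert.1 ha with h2 | h2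
      · rw [h2]
      · exact (mem_filter.1 h2).2
    exact fun a b hab => ⟨⟨hab.1, key a hab.2.1, key b hab.2.2⟩, hab.2⟩
  obtain ⟨b4, hb4P, hb4⟩ := blocked_hits hT2 hT3 (hP v)
  have h3 := card_inter_sdiff_lt hBW hb3S (mem_filter.1 hb3).1
  have h4 := card_inter_sdiff_lt hBW hb4P (mem_filter.1 hb4).1
  omega

theorem main_indB (hS : ∀ v, Hits D v (S v))
    (hP : ∀ v, Hits (fun a b => D a b ∧ τ a ≤ τ v ∧ τ b ≤ τ v) v (P v))
    (hτ : ∀ a b, τ a = τ b → a = b) {n : ℕ} (hτn : ∀ v, τ v < n) :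
    ∀ j : ℕ, ∀ (W : Finset V) (K : Finset C), K.card = j → W.card ≤ n → GoodB S P W j →
    ∀ f g : V → C, Col D W K f → Col D W K g → (∀ x, x ∉ W → f x = g x) →
      ∃ L : ℕ, L ≤ j * (n ^ 2 + 3 * n) ∧ Pth D W K L f g := by
  intro j
  induction j with
  | zero =>
    intro W K hK hWn hG f g hf hg hfg
    rcases W.eq_empty_or_nonempty with hW | hW
    · subst hW
      have : f = g := by
        funext x
        exact hfg x (by simp)
      subst this
      exact ⟨0, Nat.zero_le _, Pth.refl f hf⟩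
    · obtain ⟨v0, hv0⟩ := hW
      have := (hG v0 hv0).1
      omega
  | succ j ih =>
    intro W K hK hWn hG f g hf hg hfg
    rcases W.eq_empty_or_nonempty with hW | hW
    · subst hW
      have : f = g := by
        funext x
        exact hfg x (by simp)
      subst this
      exact ⟨0, Nat.zero_le _, Pth.refl f hf⟩
    obtain ⟨v0, hv0⟩ := hW
    obtain ⟨B, hBW, hB, hmax0⟩ := exists_greedy D (fun v => n - τ v) W
    have hmax : ∀ v ∈ W, v ∉ B → ¬ Acyc D (insert v (B.filter fun b => τ b ≤ τ v)) := by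
      intro v hv hvB h
      refine hmax0 v hv hvB (h.mono (insert_subset_insert v ?_))
      intro b hb
      rw [mem_filter] at hb ⊢
      have h1 := hτn v
      have h2 := hτn b
      exact ⟨hb.1, by omega⟩
    obtain ⟨κ, hκ⟩ : ∃ κ, κ ∈ K := ⟨f v0, hf.1 v0 hv0⟩
    have hempty : ∀ f : V → C, Col D W K f → ∃ (g : V → C) (L : ℕ),
        Pth D W K L f g ∧ (∀ x ∈ W, g x ≠ κ) ∧ 2 * L ≤ n ^ 2 + n := by
      intro f' hf'
      obtain ⟨g', L, hp, hg0, hL⟩ := clear_classB (S := S) (P := P) (τ := τ) (fun v _ => hS v)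
        (fun v hv => hK ▸ (hG v hv).1) (fun v _ => hP v) (fun v hv => hK ▸ (hG v hv).2)
        (fun a _ b _ h => hτ a b h) κ W.card 0 (card_filter_le _ _) f' hf'
        (fun _ _ _ => Nat.zero_le _)
      refine ⟨g', L, hp, hg0, hL.trans ?_⟩
      calc W.card * (W.card + 1) ≤ n * (n + 1) :=
            Nat.mul_le_mul hWn (Nat.add_le_add_right hWn 1)
        _ = n ^ 2 + n := by ring
    obtain ⟨f1, L1, hp1, hf1, hL1⟩ := hempty f hf
    obtain ⟨g1, L2, hq1, hg1, hL2⟩ := hempty g hg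
    have hp3 := fill_class hκ hp1.right hf1 B hBW hB
    have hq3 := fill_class hκ hq1.right hg1 B hBW hB
    set f3 : V → C := fun x => if x ∈ B then κ else f1 x with hf3
    set g3 : V → C := fun x => if x ∈ B then κ else g1 x with hg3
    have hcol : ∀ h : V → C, Col D W K h → (∀ x ∈ W, h x ≠ κ) →
        Col D (W \ B) (K.erase κ) (fun x => if x ∈ B then κ else h x) := by
      intro h h1 h2
      refine ⟨fun v hv => ?_, fun c => ?_⟩
      · rw [mem_sdiff] at hv
        simp only [hv.2, if_false]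
        exact mem_erase.2 ⟨h2 v hv.1, h1.1 v hv.1⟩
      · refine (h1.2 c).mono ?_
        intro x hx
        rw [mem_cls, mem_sdiff] at hx
        simp only [hx.1.2, if_false] at hx
        exact mem_cls.2 ⟨hx.1.1, hx.2⟩
    have hKc : (K.erase κ).card = j := by
      rw [card_erase_of_mem hκ, hK]
      rfl
    obtain ⟨L3, hL3, hp4⟩ := ih (W \ B) (K.erase κ) hKc
      ((card_le_card sdiff_subset).trans hWn) (hG.step hS hP hBW hB hmax) f3 g3
      (hcol f1 hp1.right hf1) (hcol g1 hq1.right hg1) (by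
        intro x hx
        by_cases hxB : x ∈ B
        · simp only [hf3, hg3, hxB, if_true]
        · have hxW : x ∉ W := fun h => hx (mem_sdiff.2 ⟨h, hxB⟩)
          simp only [hf3, hg3, hxB, if_false]
          rw [hp1.eq_off hxW, hq1.eq_off hxW]
          exact hfg x hxW)
    have hp5 := hp4.lift hBW hB hκ (by
      intro b hb
      simp only [hf3, hb, if_true])
    refine ⟨_, ?_, ((hp1.trans hp3).trans hp5).trans (hq3.symm.trans hq1.symm)⟩
    have h1 : B.card ≤ n := (card_le_card hBW).trans hWn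
    have h2 : (j + 1) * (n ^ 2 + 3 * n) = j * (n ^ 2 + 3 * n) + (n ^ 2 + 3 * n) := by ring
    rw [h2]
    omega

end Pool.Agent.CYD
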