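import Pool.Agent.CYD.Basic

/-!
# Releasing a vertex, emptying a colour class, filling an empty class
-/

set_option autoImplicit false

namespace Pool.Agent.CYD

open Relation Finset

variable {V C : Type} [DecidableEq V] [DecidableEq C]

/-- the potential of the class `κ` -/
def Pot (W : Finset V) (r : V → ℕ) (κ : C) (f : V → C) : ℕ :=
  ∑ x ∈ W, if f x = κ then 2 * r x + 1 else 0

theorem pot_update {W : Finset V} {r : V → ℕ} {κ : C} {f : V → C} {t : V} {c : C} (ht : t ∈ W) :
    Pot W r κ (Function.update f t c) + (if f t = κ then 2 * r t + 1 else 0) =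
      Pot W r κ f + (if c = κ then 2 * r t + 1 else 0) := by
  unfold Pot
  rw [← add_sum_erase W _ ht, ← add_sum_erase W (fun x => if f x = κ then 2 * r x + 1 else 0) ht]
  have h1 : ∑ x ∈ W.erase t, (if Function.update f t c x = κ then 2 * r x + 1 else 0) =
      ∑ x ∈ W.erase t, if f x = κ then 2 * r x + 1 else 0 := by
    refine sum_congr rfl fun x hx => ?_
    rw [Function.update_of_ne (ne_of_mem_erase hx)]
  rw [h1, Function.update_self]
  ring

variable {D : V → V → Prop} {W : Finset V} {K : Finset C}

theorem release {r : V → ℕ} {S : V → Finset V} (hS : ∀ v ∈ W, Hits D v (S v))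
    (hc : ∀ v ∈ W, (S v ∩ W).card + 1 ≤ K.card)
    (he : ∀ v ∈ W, (S v ∩ W).card + 1 = K.card → ∃ s ∈ S v ∩ W, r s < r v) (κ : C) :
    ∀ m : ℕ, ∀ t ∈ W, r t = m → ∀ f : V → C, Col D W K f → ∃ (g : V → C) (L : ℕ),
      Pth D W K L f g ∧ g t ≠ f t ∧ (∀ x, x ≠ t → r t ≤ r x → g x = f x) ∧ 1 ≤ L ∧
      L + Pot W r κ g ≤ Pot W r κ f + (if f t = κ then 0 else 2 * r t + 2) := by
  intro m
  induction m using Nat.strong_induction_on with
  | _ m ih =>
  intro t ht hrt f hf
  by_cases hfree : ∃ e ∈ K, e ≠ f t ∧ Acyc D (insert t (cls W f e))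
  · obtain ⟨e, heK, het, hac⟩ := hfree
    refine ⟨Function.update f t e, 1, Pth.single hf ht (hf.update heK hac), ?_, ?_, le_rfl, ?_⟩
    · rwa [Function.update_self]
    · intro x hx _
      rw [Function.update_of_ne hx]
    · have h1 := pot_update (r := r) (κ := κ) (f := f) (c := e) ht
      by_cases h2 : f t = κ
      · have h3 : ¬ e = κ := fun h => het (h.trans h2.symm)
        rw [if_pos h2, if_neg h3] at h1
        rw [if_pos h2]
        omega
      · rw [if_neg h2] at h1 ⊢
        split_ifs at h1 <;> omega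
  · push Not at hfree
    have hblock : ∀ e ∈ K.erase (f t), ∃ x ∈ S t ∩ W, f x = e := by
      intro e he'
      obtain ⟨x, hx1, hx2⟩ := blocked_hits (hf.2 e)
        (hfree e (mem_of_mem_erase he') (ne_of_mem_erase he')) (hS t ht)
      rw [mem_cls] at hx2
      exact ⟨x, mem_inter.2 ⟨hx1, hx2.1⟩, hx2.2⟩
    have hsub : K.erase (f t) ⊆ (S t ∩ W).image f := by
      intro e he'
      obtain ⟨x, hx, hxe⟩ := hblock e he'
      exact mem_image.2 ⟨x, hx, hxe⟩
    have hftK : f t ∈ K := hf.1 t ht
    have hcardK : (K.erase (f t)).card + 1 = K.card := card_erase_add_one hftK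
    have h1 : (K.erase (f t)).card ≤ ((S t ∩ W).image f).card := card_le_card hsub
    have h2 : ((S t ∩ W).image f).card ≤ (S t ∩ W).card := card_image_le
    have h3 := hc t ht
    have himg : K.erase (f t) = (S t ∩ W).image f := eq_of_subset_of_card_le hsub (by omega)
    have hinj : Set.InjOn f (S t ∩ W : Finset V) := card_image_iff.1 (by omega)
    obtain ⟨s0, hs0, hs0r⟩ := he t ht (by omega)
    obtain ⟨s, hs, hmin⟩ := exists_min_image (S t ∩ W) r ⟨s0, hs0⟩
    have hsr : r s < r t := lt_of_le_of_lt (hmin s0 hs0) hs0r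
    have hsS : s ∈ S t := (mem_inter.1 hs).1
    have hsW : s ∈ W := (mem_inter.1 hs).2
    have hst : s ≠ t := fun h => (hS t ht).1 (h ▸ hsS)
    have hfs : f s ∈ K.erase (f t) := by
      rw [himg]
      exact mem_image_of_mem f hs
    have hfst : f s ≠ f t := ne_of_mem_erase hfs
    obtain ⟨g, L, hp, hgs, hgx, hL, hpot⟩ := ih (r s) (hrt ▸ hsr) s hsW rfl f hf
    have hgt : g t = f t := hgx t hst.symm hsr.le
    have hgcol := hp.right
    have hac : Acyc D (insert t (cls W g (f s))) := by
      refine acyc_insert_of_hits (hgcol.2 _) (hS t ht) ?_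
      intro x hx hx2
      rw [mem_cls] at hx2
      have hxI : x ∈ S t ∩ W := mem_inter.2 ⟨hx, hx2.1⟩
      by_cases hxs : x = s
      · subst hxs
        exact hgs hx2.2
      · have h4 : g x = f x := hgx x hxs (hmin x hxI)
        exact hxs (hinj hxI hs (h4 ▸ hx2.2))
    refine ⟨Function.update g t (f s), L + 1,
      Pth.step t (f s) hp ht (hgcol.update (mem_of_mem_erase hfs) hac), ?_, ?_, by omega, ?_⟩
    · rwa [Function.update_self]
    · intro x hx hxr
      rw [Function.update_of_ne hx]
      refine hgx x ?_ (by omega)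
      rintro rfl
      omega
    · have h5 := pot_update (r := r) (κ := κ) (f := g) (c := f s) ht
      rw [hgt] at h5
      by_cases h6 : f t = κ
      · have h7 : ¬ f s = κ := fun h => hfst (h.trans h6.symm)
        rw [if_pos h6, if_neg h7] at h5
        rw [if_neg h7] at hpot
        rw [if_pos h6]
        omega
      · rw [if_neg h6] at h5 ⊢
        by_cases h7 : f s = κ
        · rw [if_pos h7] at h5 hpot
          omega
        · rw [if_neg h7] at h5 hpot
          omega

theorem pot_pos {r : V → ℕ} {κ : C} {f : V → C} {x : V} (hx : x ∈ W) (hfx : f x = κ) :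
    1 ≤ Pot W r κ f := by
  have h1 : (fun x => if f x = κ then 2 * r x + 1 else 0) x ≤
      ∑ x ∈ W, if f x = κ then 2 * r x + 1 else 0 :=
    single_le_sum (f := fun x => if f x = κ then 2 * r x + 1 else 0) (fun _ _ => Nat.zero_le _) hx
  simp only [hfx, if_true] at h1
  unfold Pot
  omega

/-- a colour class can be emptied -/
theorem clear_class {r : V → ℕ} {S : V → Finset V} (hS : ∀ v ∈ W, Hits D v (S v))
    (hc : ∀ v ∈ W, (S v ∩ W).card + 1 ≤ K.card)
    (he : ∀ v ∈ W, (S v ∩ W).card + 1 = K.card → ∃ s ∈ S v ∩ W, r s < r v) (κ : C) :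
    ∀ N : ℕ, ∀ f : V → C, Col D W K f → Pot W r κ f ≤ N → ∃ (g : V → C) (L : ℕ),
      Pth D W K L f g ∧ (∀ x ∈ W, g x ≠ κ) ∧ L ≤ Pot W r κ f := by
  intro N
  induction N with
  | zero =>
    intro f hf hN
    refine ⟨f, 0, Pth.refl f hf, ?_, Nat.zero_le _⟩
    intro x hx hfx
    have := pot_pos (r := r) hx hfx
    omega
  | succ N ih =>
    intro f hf hN
    by_cases h : ∃ x ∈ W, f x = κ
    · obtain ⟨x, hx, hfx⟩ := h
      obtain ⟨g, L, hp, -, -, hL, hpot⟩ := release hS hc he κ (r x) x hx rfl f hf
      rw [if_pos hfx] at hpot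
      obtain ⟨g', L', hp', hg', hL'⟩ := ih g hp.right (by omega)
      exact ⟨g', L + L', hp.trans hp', hg', by omega⟩
    · push Not at h
      exact ⟨f, 0, Pth.refl f hf, h, Nat.zero_le _⟩

/-- an acyclic set can be moved to an empty class -/
theorem fill_class {κ : C} (hκ : κ ∈ K) {f : V → C} (hf : Col D W K f) (hf0 : ∀ x ∈ W, f x ≠ κ) :
    ∀ X : Finset V, X ⊆ W → Acyc D X →
      Pth D W K X.card f (fun x => if x ∈ X then κ else f x) := by
  intro X
  induction X using Finset.induction_on with
  | empty =>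
    intro _ _
    have : (fun x => if x ∈ (∅ : Finset V) then κ else f x) = f := by
      funext x
      simp
    rw [this]
    exact Pth.refl f hf
  | insert a X ha ih =>
    intro hX hac
    have h1 := ih (fun x hx => hX (mem_insert_of_mem hx)) (hac.mono (subset_insert a X))
    have h2 : (fun x => if x ∈ insert a X then κ else f x) =
        Function.update (fun x => if x ∈ X then κ else f x) a κ := by
      funext x
      by_cases hx : x = a
      · subst hx
        simp
      · rw [Function.update_of_ne hx]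
        simp [hx]
    rw [h2, card_insert_of_notMem ha]
    have haW : a ∈ W := hX (mem_insert_self a X)
    refine Pth.step a κ h1 haW (h1.right.update hκ (hac.mono ?_))
    intro x hx
    rcases mem_insert.1 hx with h3 | h3
    · rw [h3]
      exact mem_insert_self a X
    · rw [mem_cls] at h3
      by_cases h4 : x ∈ X
      · exact mem_insert_of_mem h4
      · simp only [h4, if_false] at h3
        exact absurd h3.2 (hf0 x h3.1)

end Pool.Agent.CYD
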