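import Pool.Agent.CYD.Main

/-!
# From the hypotheses on the digraph to the hypothesis of the induction
-/

set_option autoImplicit false

namespace Pool.Agent.CYD

open Relation Finset

variable {V : Type} [Fintype V] [DecidableEq V]

/-- the vertices with a directed path of length at most `m` to a vertex with property `Z` -/
def Near (D : V → V → Prop) (Z : V → Prop) : ℕ → V → Prop
  | 0, v => Z v
  | m + 1, v => Near D Z m v ∨ ∃ w, D v w ∧ Near D Z m w

theorem hits_out {D : V → V → Prop} (hl : ∀ v, ¬ D v v) (v : V) [DecidablePred (D v)] :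
    Hits D v (univ.filter fun w => D v w) := by
  refine ⟨fun h => hl v (mem_filter.1 h).2, fun h => ?_⟩
  obtain ⟨x, hx, -⟩ := TransGen.head'_iff.1 h
  exact hx.2.2 (mem_filter.2 ⟨mem_univ _, hx.1⟩)

theorem setup {D : V → V → Prop} (hl : ∀ v, ¬ D v v) {k : ℕ}
    (H1 : ∀ U : Finset V, U.Nonempty → ∃ z ∈ U, ∃ S : Finset V, S.card + 2 ≤ k ∧
      Hits (fun a b => D a b ∧ a ∈ U ∧ b ∈ U) z S)
    (H2 : ∀ v, (∀ X : Finset V, (∀ x ∈ X, D v x) → X.card + 1 ≤ k) ∨
      ∃ S : Finset V, S.card + 2 ≤ k ∧ Hits D v S) :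
    ∃ (S : V → Finset V) (r : V → ℕ), (∀ v, Hits D v (S v)) ∧
      (∀ v, r v < Fintype.card V) ∧ Good D r S univ k := by
  classical
  set Z : V → Prop := fun v => ∃ S : Finset V, S.card + 2 ≤ k ∧ Hits D v S with hZ
  -- every vertex is near `Z`
  have hnear : ∀ v, ∃ m, Near D Z m v := by
    by_contra hcon
    push Not at hcon
    obtain ⟨v0, hv0⟩ := hcon
    set U : Finset V := univ.filter fun v => ∀ m, ¬ Near D Z m v with hU
    have hUcl : ∀ a ∈ U, ∀ b, D a b → b ∈ U := by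
      intro a ha b hab
      rw [hU, mem_filter] at ha ⊢
      refine ⟨mem_univ _, fun m hm => ha.2 (m + 1) (Or.inr ⟨b, hab, hm⟩)⟩
    obtain ⟨z, hz, S, hSc, hS⟩ := H1 U ⟨v0, mem_filter.2 ⟨mem_univ _, hv0⟩⟩
    have hzZ : Z z := by
      refine ⟨S, hSc, hS.1, fun h => hS.2 ?_⟩
      have key : ∀ a, TransGen (fun a b => D a b ∧ a ∉ S ∧ b ∉ S) z a →
          TransGen (fun a b => (D a b ∧ a ∈ U ∧ b ∈ U) ∧ a ∉ S ∧ b ∉ S) z a ∧ a ∈ U := by
        intro a h
        induction h with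
        | single hab =>
          have h2 := hUcl z hz _ hab.1
          exact ⟨TransGen.single ⟨⟨hab.1, hz, h2⟩, hab.2⟩, h2⟩
        | tail _ hbc ih =>
          have h2 := hUcl _ ih.2 _ hbc.1
          exact ⟨TransGen.tail ih.1 ⟨⟨hbc.1, ih.2, h2⟩, hbc.2⟩, h2⟩
      exact (key z h).1
    exact (mem_filter.1 hz).2 0 hzZ
  set d : V → ℕ := fun v => Nat.find (hnear v) with hd
  have hd0 : ∀ v, Z v → d v = 0 := by
    intro v hv
    exact (Nat.find_eq_zero (hnear v)).2 hv
  have hd1 : ∀ v, ¬ Z v → ∃ w, D v w ∧ d w < d v := by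
    intro v hv
    have hspec := Nat.find_spec (hnear v)
    obtain ⟨m, hm⟩ : ∃ m, d v = m + 1 := by
      cases h : d v with
      | zero =>
        exfalso
        have h0 : Nat.find (hnear v) = 0 := h
        rw [h0] at hspec
        exact hv hspec
      | succ m => exact ⟨m, rfl⟩
    have h0 : Nat.find (hnear v) = m + 1 := hm
    rw [h0] at hspec
    have hmin : ¬ Near D Z m v := Nat.find_min (hnear v) (by omega)
    rcases hspec with h | ⟨w, hw, hwn⟩
    · exact absurd h hmin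
    · refine ⟨w, hw, ?_⟩
      have : d w ≤ m := Nat.find_min' (hnear w) hwn
      omega
  set r : V → ℕ := fun v => (univ.filter fun u => d u < d v).card with hr
  have hrlt : ∀ u v, d u < d v → r u < r v := by
    intro u v huv
    refine card_lt_card ⟨?_, ?_⟩
    · intro x hx
      rw [mem_filter] at hx ⊢
      exact ⟨mem_univ _, hx.2.trans huv⟩
    · intro h
      have := h (mem_filter.2 ⟨mem_univ u, huv⟩)
      rw [mem_filter] at this
      omega
  have hSex : ∀ v, ∃ S : Finset V, Hits D v S ∧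
      ((Z v ∧ S.card + 2 ≤ k) ∨ (¬ Z v ∧ S = univ.filter fun w => D v w)) := by
    intro v
    by_cases hv : Z v
    · obtain ⟨S, h1, h2⟩ := hv
      exact ⟨S, h2, Or.inl ⟨⟨S, h1, h2⟩, h1⟩⟩
    · exact ⟨_, hits_out hl v, Or.inr ⟨hv, rfl⟩⟩
  choose S hS hS2 using hSex
  refine ⟨S, r, hS, ?_, ?_⟩
  · intro v
    refine card_lt_card ⟨subset_univ _, fun h => ?_⟩
    have := h (mem_univ v)
    rw [mem_filter] at this
    omega
  · intro v _
    rw [inter_univ]
    rcases hS2 v with ⟨hv, hc⟩ | ⟨hv, hc⟩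
    · refine ⟨by omega, fun h => by omega, fun h => ?_⟩
      exfalso
      refine h ?_
      simp only [hr, hd0 v hv]
      simp
    · have hX : ∀ X : Finset V, (∀ x ∈ X, D v x) → X.card + 1 ≤ k := by
        rcases H2 v with h | h
        · exact h
        · exact absurd h hv
      refine ⟨?_, fun _ => ?_, fun _ X _ h => hX X h⟩
      · rw [hc]
        exact hX _ fun x hx => (mem_filter.1 hx).2
      · obtain ⟨w, hw, hwd⟩ := hd1 v hv
        refine ⟨w, ?_, hrlt w v hwd⟩
        rw [hc]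
        exact mem_filter.2 ⟨mem_univ _, hw⟩

/-- any two dicolourings are joined by at most `9 n ^ 2` recolourings -/
theorem exists_pth {D : V → V → Prop} (hl : ∀ v, ¬ D v v) {k : ℕ}
    (H1 : ∀ U : Finset V, U.Nonempty → ∃ z ∈ U, ∃ S : Finset V, S.card + 2 ≤ k ∧
      Hits (fun a b => D a b ∧ a ∈ U ∧ b ∈ U) z S)
    (H2 : ∀ v, (∀ X : Finset V, (∀ x ∈ X, D v x) → X.card + 1 ≤ k) ∨
      ∃ S : Finset V, S.card + 2 ≤ k ∧ Hits D v S)
    (f g : V → Fin k) (hf : ∀ c, Acyc D (univ.filter fun v => f v = c))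
    (hg : ∀ c, Acyc D (univ.filter fun v => g v = c)) :
    ∃ L : ℕ, L ≤ 9 * Fintype.card V ^ 2 ∧
      Pth D (univ : Finset V) (univ : Finset (Fin k)) L f g := by
  obtain ⟨S, r, hS, hr, hG⟩ := setup hl H1 H2
  obtain ⟨L, hL, hp⟩ := main_ind hl hS hr (univ : Finset V).card univ
    (univ : Finset (Fin k)) rfl (by rw [card_univ]) (by rw [card_univ, Fintype.card_fin]; exact hG)
    f g ⟨fun _ _ => mem_univ _, hf⟩ ⟨fun _ _ => mem_univ _, hg⟩ (fun x hx => absurd (mem_univ x) hx)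
  refine ⟨L, hL.trans_eq ?_, hp⟩
  rw [card_univ]
  ring

end Pool.Agent.CYD
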